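import Mathlib

/-! Average shadowing, asymptotic average shadowing, almost specification, measure center. -/

set_option autoImplicit false
open Filter Topology Set MeasureTheory

namespace Pool.Agent.X125.Asp

section
variable {X : Type*} [MetricSpace X]

/-- The measure center: the complement of the union of all open sets that are null for every
invariant Borel probability measure. -/
def measureCenter [MeasurableSpace X] (f : X → X) : Set X :=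
  (⋃₀ {U : Set X | IsOpen U ∧ ∀ μ : Measure X, IsProbabilityMeasure μ →
    MeasurePreserving f μ μ → μ U = 0})ᶜ

/-- `δ`-average-pseudo-orbits. -/
def IsAvgPseudoOrbit (f : X → X) (δ : ℝ) (x : ℕ → X) : Prop :=
  ∃ N : ℕ, ∀ n ≥ N, ∀ k : ℕ,
    (1 / (n : ℝ)) * ∑ i ∈ Finset.range n, dist (f (x (i + k))) (x (i + k + 1)) < δ

/-- `y` `ε`-shadows the sequence `x` in average. -/
def AvgShadows (f : X → X) (ε : ℝ) (y : X) (x : ℕ → X) : Prop :=
  limsup (fun n : ℕ => (1 / (n : ℝ)) * ∑ i ∈ Finset.range n, dist (f^[i] y) (x i)) atTop < ε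

/-- The average shadowing property. -/
def ASP (f : X → X) : Prop :=
  ∀ ε > 0, ∃ δ > 0, ∀ x : ℕ → X, IsAvgPseudoOrbit f δ x → ∃ y, AvgShadows f ε y x

/-- The asymptotic average shadowing property. -/
def AASP (f : X → X) : Prop :=
  ∀ x : ℕ → X, Tendsto (fun n : ℕ => (1 / (n : ℝ)) *
      ∑ i ∈ Finset.range n, dist (f (x i)) (x (i + 1))) atTop (𝓝 0) →
    ∃ y, Tendsto (fun n : ℕ => (1 / (n : ℝ)) *
      ∑ i ∈ Finset.range n, dist (f^[i] y) (x i)) atTop (𝓝 0)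

/-- Mistake functions on `ℤ_{>0} × (0, ε₀]`; for `ε > ε₀` one puts `g(n, ε) = g(n, ε₀)`, that is,
the value used for arbitrary `ε > 0` is `g n (min ε ε₀)`. -/
def IsMistake (ε₀ : ℝ) (g : ℕ → ℝ → ℕ) : Prop :=
  0 < ε₀ ∧ ∀ ε, 0 < ε → ε ≤ ε₀ →
    (∀ n, 1 ≤ n → g n ε ≤ g (n + 1) ε) ∧ Tendsto (fun n : ℕ => (g n ε : ℝ) / n) atTop (𝓝 0)

/-- The ball `B_n(g; x, ε)`. -/
def MBall (f : X → X) (ε₀ : ℝ) (g : ℕ → ℝ → ℕ) (n : ℕ) (x : X) (ε : ℝ) : Set X :=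
  {y | ∃ Λ : Finset ℕ, Λ ⊆ Finset.range n ∧ n - g n (min ε ε₀) ≤ Λ.card ∧
    ∀ j ∈ Λ, dist (f^[j] x) (f^[j] y) < ε}

/-- The almost specification property. -/
def AlmostSpec (f : X → X) : Prop :=
  ∃ (ε₀ : ℝ) (g : ℕ → ℝ → ℕ) (kg : ℝ → ℕ), IsMistake ε₀ g ∧
    (∀ ε > 0, ∀ n ≥ kg ε, g n (min ε ε₀) < n) ∧
    ∀ (m : ℕ) (ε : ℕ → ℝ) (x : ℕ → X) (n : ℕ → ℕ), 1 ≤ m → (∀ j < m, 0 < ε j) →
      (∀ j < m, kg (ε j) ≤ n j) →
      ∃ z : X, ∀ j < m, f^[∑ i ∈ Finset.range j, n i] z ∈ MBall f ε₀ g (n j) (x j) (ε j)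

/-- Topological mixing. -/
def TopMixing (f : X → X) : Prop :=
  ∀ U V : Set X, IsOpen U → IsOpen V → U.Nonempty → V.Nonempty →
    ∃ N : ℕ, ∀ n ≥ N, ((f^[n] '' U) ∩ V).Nonempty

end

end Pool.Agent.X125.Asp
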