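import Mathlib

/-! Positive entropy from shadowing of a positive proportion of concatenations of two orbit pieces. -/

set_option autoImplicit false
open Filter Topology Set

namespace Pool.Agent.X125.Asp

/-- Concatenation of orbit pieces of length `L` of the two points `a false`, `a true` in the order
given by `ω`. -/
def wseq {X : Type*} (f : X → X) (L : ℕ) (a : Bool → X) (ω : ℕ → Bool) (i : ℕ) : X :=
  f^[i % L] (a (ω (i / L)))

theorem wseq_block {X : Type*} (f : X → X) (L : ℕ) (a : Bool → X) (ω : ℕ → Bool) (j r : ℕ)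
    (hr : r < L) : wseq f L a ω (j * L + r) = f^[r] (a (ω j)) := by
  have hL : 0 < L := by omega
  unfold wseq
  have e1 : (j * L + r) % L = r := by
    rw [Nat.add_mod, Nat.mul_mod_left, zero_add, Nat.mod_mod, Nat.mod_eq_of_lt hr]
  have e2 : (j * L + r) / L = j := by
    rw [Nat.add_div_of_dvd_right (Dvd.intro_left j rfl), Nat.mul_div_cancel _ hL,
      Nat.div_eq_of_lt hr, add_zero]
  rw [e1, e2]

theorem sum_blocks (F : ℕ → ℝ) (m L : ℕ) :
    ∑ i ∈ Finset.range (m * L), F i =
      ∑ j ∈ Finset.range m, ∑ r ∈ Finset.range L, F (j * L + r) := by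
  induction m with
  | zero => simp
  | succ m ih => rw [Nat.succ_mul, Finset.sum_range_add, ih, Finset.sum_range_succ]

/-- All concatenations with a given initial pattern are shadowed on average. -/
def HP {X : Type*} [MetricSpace X] (f : X → X) (L : ℕ) (a : Bool → X) (ε : ℝ) : Prop :=
  ∃ (u : ℕ → Bool) (k N : ℕ), ∀ m ≥ N, ∀ ω : ℕ → Bool, (∀ j < k, ω j = u j) →
    ∃ z, ∑ i ∈ Finset.range (m * L), dist (f^[i] z) (wseq f L a ω i) ≤ ε * (m * L)

theorem ball_count (q : ℕ) (v0 : Fin (5 * q) → Bool) :
    ((Finset.univ.filter fun v : Fin (5 * q) → Bool =>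
      (Finset.univ.filter fun i => v i ≠ v0 i).card ≤ q).card : ℝ) ≤ 4 ^ q * (5 / 4) ^ (5 * q) := by
  classical
  have h1 : ∑ v : Fin (5 * q) → Bool, ∏ i, (if v i ≠ v0 i then (1 / 4 : ℝ) else 1) =
      (5 / 4) ^ (5 * q) := by
    have := Finset.prod_univ_sum (fun _ : Fin (5 * q) => (Finset.univ : Finset Bool))
      (fun i b => if b ≠ v0 i then (1 / 4 : ℝ) else 1)
    rw [Fintype.piFinset_univ] at this
    rw [← this]
    have h2 : ∀ i : Fin (5 * q), ∑ b : Bool, (if b ≠ v0 i then (1 / 4 : ℝ) else 1) = 5 / 4 := by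
      intro i
      cases v0 i <;> norm_num
    rw [Finset.prod_congr rfl fun i _ => h2 i, Finset.prod_const, Finset.card_univ,
      Fintype.card_fin]
  have h3 : ∀ v : Fin (5 * q) → Bool, ∏ i, (if v i ≠ v0 i then (1 / 4 : ℝ) else 1) =
      (1 / 4) ^ (Finset.univ.filter fun i => v i ≠ v0 i).card := by
    intro v
    rw [Finset.prod_ite]
    simp
  have h4 : ∀ v ∈ (Finset.univ.filter fun v : Fin (5 * q) → Bool =>
      (Finset.univ.filter fun i => v i ≠ v0 i).card ≤ q),
      (1 / 4 : ℝ) ^ q ≤ ∏ i, (if v i ≠ v0 i then (1 / 4 : ℝ) else 1) := by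
    intro v hv
    rw [h3]
    exact pow_le_pow_of_le_one (by norm_num) (by norm_num) (Finset.mem_filter.mp hv).2
  have h5 := Finset.card_nsmul_le_sum _ _ _ h4
  have h6 : ∑ v ∈ (Finset.univ.filter fun v : Fin (5 * q) → Bool =>
      (Finset.univ.filter fun i => v i ≠ v0 i).card ≤ q),
      ∏ i, (if v i ≠ v0 i then (1 / 4 : ℝ) else 1) ≤ (5 / 4) ^ (5 * q) := by
    rw [← h1]
    apply Finset.sum_le_sum_of_subset_of_nonneg (Finset.subset_univ _)
    intro v _ _
    apply Finset.prod_nonneg
    intro i _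
    split_ifs <;> norm_num
  rw [nsmul_eq_mul] at h5
  have h7 := le_trans h5 h6
  have h8 : (4 : ℝ) ^ q * (1 / 4) ^ q = 1 := by rw [← mul_pow]; norm_num
  calc ((Finset.univ.filter fun v : Fin (5 * q) → Bool =>
      (Finset.univ.filter fun i => v i ≠ v0 i).card ≤ q).card : ℝ)
      = 4 ^ q * (((Finset.univ.filter fun v : Fin (5 * q) → Bool =>
      (Finset.univ.filter fun i => v i ≠ v0 i).card ≤ q).card : ℝ) * (1 / 4) ^ q) := by
        rw [mul_comm _ ((1 / 4 : ℝ) ^ q), ← mul_assoc, h8, one_mul]
    _ ≤ _ := by gcongr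

/-- Maximal separated families. -/
theorem exists_maxsep {ι : Type*} [Fintype ι] [DecidableEq ι] (R : ι → ι → Prop)
    (hrefl : ∀ v, R v v) (hsymm : ∀ v w, R v w → R w v) :
    ∃ S : Finset ι, (∀ v ∈ S, ∀ w ∈ S, v ≠ w → ¬ R v w) ∧ ∀ v, ∃ s ∈ S, R v s := by
  classical
  obtain ⟨S, hS, hmax⟩ := Finset.exists_max_image
    (Finset.univ.filter fun S : Finset ι => ∀ v ∈ S, ∀ w ∈ S, v ≠ w → ¬ R v w) Finset.card
    ⟨∅, by simp⟩
  have hS' := (Finset.mem_filter.mp hS).2
  refine ⟨S, hS', fun v => ?_⟩
  by_contra hcon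
  push Not at hcon
  have hv : v ∉ S := fun h => hcon v h (hrefl v)
  have h1 : insert v S ∈ (Finset.univ.filter fun S : Finset ι =>
      ∀ v ∈ S, ∀ w ∈ S, v ≠ w → ¬ R v w) := by
    refine Finset.mem_filter.mpr ⟨Finset.mem_univ _, ?_⟩
    intro x hx y hy hxy
    rcases Finset.mem_insert.mp hx with hx' | hx'
    · rcases Finset.mem_insert.mp hy with hy' | hy'
      · exact absurd (hx'.trans hy'.symm) hxy
      · rw [hx']
        exact hcon y hy'
    · rcases Finset.mem_insert.mp hy with hy' | hy'
      · rw [hy']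
        exact fun h => hcon x hx' (hsymm _ _ h)
      · exact hS' x hx' y hy' hxy
  have h2 := hmax _ h1
  rw [Finset.card_insert_of_notMem hv] at h2
  omega

theorem entropy_pos {X : Type*} [MetricSpace X] (f : X → X) (L : ℕ) (a : Bool → X) (c : ℝ)
    (hL : 0 < L) (hc0 : 0 < c)
    (hc : c * L ≤ ∑ r ∈ Finset.range L, dist (f^[r] (a true)) (f^[r] (a false)))
    (hHP : HP f L a (c / 40)) : 0 < Dynamics.coverEntropy f (univ : Set X) := by
  classical
  obtain ⟨u, k, N, hHP⟩ := hHP
  set U : Set (X × X) := {p | dist p.1 p.2 < c / 40} with hU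
  have hUm : U ∈ uniformity X := Metric.dist_mem_uniformity (by positivity)
  set a0 : ℝ := Real.log 2 / (12 * L) with ha0
  have hL' : (0 : ℝ) < L := by exact_mod_cast hL
  have hlog : 0 < Real.log 2 := Real.log_pos (by norm_num)
  have ha0' : 0 < a0 := by positivity
  refine lt_of_lt_of_le (b := ((a0 : ℝ) : EReal)) (by exact_mod_cast ha0') ?_
  refine le_trans ?_ (Dynamics.netEntropyEntourage_le_coverEntropy f univ hUm)
  apply Frequently.le_expGrowthSup
  rw [Filter.frequently_atTop]
  intro n0
  -- choose q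
  set q := n0 + N + k + 1 with hq
  set m := 5 * q + k with hm
  refine ⟨m * L, ?_, ?_⟩
  · have : m ≤ m * L := Nat.le_mul_of_pos_right _ hL
    omega
  -- points
  set ext : (Fin (5 * q) → Bool) → ℕ → Bool := fun v j =>
    if j < k then u j else if h : j - k < 5 * q then v ⟨j - k, h⟩ else false with hext
  have hz : ∀ v : Fin (5 * q) → Bool, ∃ z, ∑ i ∈ Finset.range (m * L),
      dist (f^[i] z) (wseq f L a (ext v) i) ≤ c / 40 * (m * L) := by
    intro v
    apply hHP m (by omega)
    intro j hj
    simp [hext, hj]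
  choose z hz using hz
  set D : X → X → ℝ := fun x y => ∑ i ∈ Finset.range (m * L), dist (f^[i] x) (f^[i] y) with hD
  obtain ⟨S, hS1, hS2⟩ := exists_maxsep (fun v w : Fin (5 * q) → Bool =>
    D (z v) (z w) ≤ c / 20 * (m * L)) (fun v => by simp [hD]; positivity)
    (fun v w h => by simpa [hD, dist_comm] using h)
  -- Hamming
  have hham : ∀ v w : Fin (5 * q) → Bool, D (z v) (z w) ≤ c / 20 * (m * L) →
      (Finset.univ.filter fun i => v i ≠ w i).card ≤ q := by
    intro v w hvw
    have h1 : ∑ i ∈ Finset.range (m * L), dist (wseq f L a (ext v) i) (wseq f L a (ext w) i) ≤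
        c / 10 * (m * L) := by
      calc ∑ i ∈ Finset.range (m * L), dist (wseq f L a (ext v) i) (wseq f L a (ext w) i)
          ≤ ∑ i ∈ Finset.range (m * L), (dist (f^[i] (z v)) (wseq f L a (ext v) i) +
            dist (f^[i] (z v)) (f^[i] (z w)) + dist (f^[i] (z w)) (wseq f L a (ext w) i)) := by
            apply Finset.sum_le_sum
            intro i _
            have e1 := dist_triangle (wseq f L a (ext v) i) (f^[i] (z v)) (wseq f L a (ext w) i)
            have e2 := dist_triangle (f^[i] (z v)) (f^[i] (z w)) (wseq f L a (ext w) i)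
            rw [dist_comm (wseq f L a (ext v) i) (f^[i] (z v))] at e1
            linarith
        _ = _ := by rw [Finset.sum_add_distrib, Finset.sum_add_distrib]
        _ ≤ c / 40 * (m * L) + c / 20 * (m * L) + c / 40 * (m * L) := by
            gcongr
            · exact hz v
            · exact hz w
        _ = c / 10 * (m * L) := by ring
    have h2 : ∀ j, ext v j ≠ ext w j → c * L ≤ ∑ r ∈ Finset.range L,
        dist (wseq f L a (ext v) (j * L + r)) (wseq f L a (ext w) (j * L + r)) := by
      intro j hj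
      refine le_trans hc (le_of_eq ?_)
      apply Finset.sum_congr rfl
      intro r hr
      rw [wseq_block _ _ _ _ _ _ (Finset.mem_range.mp hr),
        wseq_block _ _ _ _ _ _ (Finset.mem_range.mp hr)]
      cases hv : ext v j <;> cases hw : ext w j
      · exact absurd (hv.trans hw.symm) hj
      · exact dist_comm _ _
      · rfl
      · exact absurd (hv.trans hw.symm) hj
    rw [sum_blocks] at h1
    set J := (Finset.range m).filter fun j => ext v j ≠ ext w j with hJ
    have h3 : (J.card : ℝ) * (c * L) ≤ c / 10 * (m * L) := by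
      refine le_trans ?_ h1
      rw [← nsmul_eq_mul]
      refine le_trans (Finset.card_nsmul_le_sum J _ _ fun j hj => h2 j (Finset.mem_filter.mp hj).2) ?_
      apply Finset.sum_le_sum_of_subset_of_nonneg (Finset.filter_subset _ _)
      intro j _ _
      exact Finset.sum_nonneg fun r _ => dist_nonneg
    have h4 : (Finset.univ.filter fun i => v i ≠ w i).card ≤ J.card := by
      apply Finset.card_le_card_of_injOn (fun i : Fin (5 * q) => i.1 + k)
      · intro i hi
        have hi' : v i ≠ w i := by simpa using hi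
        have hlt := i.2
        have e1 : ∀ v : Fin (5 * q) → Bool, ext v (i.1 + k) = v i := by
          intro v
          simp [hext]
        have hmem : i.1 + k ∈ J := by
          rw [hJ, Finset.mem_filter, Finset.mem_range, e1, e1]
          exact ⟨by omega, hi'⟩
        exact hmem
      · intro i _ j _ hij
        have : i.1 + k = j.1 + k := hij
        exact Fin.ext (by omega)
    have h5 : (J.card : ℝ) ≤ m / 10 := by
      have hcl : 0 < c * L := by positivity
      have e : c / 10 * (m * L) = (m / 10) * (c * L) := by ring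
      rw [e] at h3
      exact le_of_mul_le_mul_right h3 hcl
    have h6 : (m : ℝ) / 10 < q + 1 := by
      have : (m : ℝ) = 5 * q + k := by rw [hm]; push_cast; ring
      have h7 : (k : ℝ) ≤ q := by exact_mod_cast (by omega : k ≤ q)
      rw [this]
      linarith
    have h7 : (J.card : ℝ) < q + 1 := lt_of_le_of_lt h5 h6
    have h8 : J.card < q + 1 := by exact_mod_cast h7
    omega
  -- count
  have hcount : (2 : ℝ) ^ (5 * q) ≤ S.card * (4 ^ q * (5 / 4) ^ (5 * q)) := by
    have h1 : (Finset.univ : Finset (Fin (5 * q) → Bool)) ⊆ S.biUnion fun s =>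
        Finset.univ.filter fun v => (Finset.univ.filter fun i => v i ≠ s i).card ≤ q := by
      intro v _
      obtain ⟨s, hs, hvs⟩ := hS2 v
      exact Finset.mem_biUnion.mpr ⟨s, hs, Finset.mem_filter.mpr ⟨Finset.mem_univ _, hham v s hvs⟩⟩
    have h2 := Finset.card_le_card h1
    rw [Finset.card_univ, Fintype.card_fun, Fintype.card_bool, Fintype.card_fin] at h2
    have h3 : ((2 ^ (5 * q) : ℕ) : ℝ) ≤ ((S.biUnion fun s =>
        Finset.univ.filter fun v : Fin (5 * q) → Bool =>
        (Finset.univ.filter fun i => v i ≠ s i).card ≤ q).card : ℝ) := by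
      exact_mod_cast h2
    push_cast at h3
    refine le_trans h3 ?_
    have h4 : ((S.biUnion fun s => Finset.univ.filter fun v : Fin (5 * q) → Bool =>
        (Finset.univ.filter fun i => v i ≠ s i).card ≤ q).card : ℝ) ≤
        ∑ s ∈ S, ((Finset.univ.filter fun v : Fin (5 * q) → Bool =>
        (Finset.univ.filter fun i => v i ≠ s i).card ≤ q).card : ℝ) := by
      exact_mod_cast Finset.card_biUnion_le
    refine le_trans h4 ?_
    refine le_trans (Finset.sum_le_sum fun s _ => ball_count q s) ?_
    rw [Finset.sum_const, nsmul_eq_mul]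
  have hScard : (2 : ℝ) ^ q ≤ S.card := by
    have e1 : (2 : ℝ) ^ (5 * q) = 32 ^ q := by rw [pow_mul]; norm_num
    have e2 : (4 : ℝ) ^ q * (5 / 4) ^ (5 * q) = (3125 / 256) ^ q := by
      rw [pow_mul, ← mul_pow]; norm_num
    rw [e1, e2] at hcount
    have e3 : (2 : ℝ) ^ q * (3125 / 256) ^ q ≤ 32 ^ q := by
      rw [← mul_pow]
      exact pow_le_pow_left₀ (by norm_num) (by norm_num) q
    have e4 : (0 : ℝ) < (3125 / 256) ^ q := by positivity
    exact le_of_mul_le_mul_right (le_trans e3 hcount) e4
  -- the net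
  have hn0 : (0 : ℝ) < (m : ℝ) * L := by
    have : (0 : ℝ) < m := by exact_mod_cast (by omega : 0 < m)
    positivity
  have hinj : Set.InjOn z S := by
    intro v hv w hw hvw
    by_contra hne
    apply hS1 v hv w hw hne
    show D (z v) (z w) ≤ _
    rw [hvw]
    simp only [hD, dist_self, Finset.sum_const_zero]
    positivity
  have hnet : Dynamics.IsDynNetIn f univ U (m * L) ((S.image z : Finset X) : Set X) := by
    refine ⟨subset_univ _, ?_⟩
    intro x hx y hy hxy
    rw [Finset.mem_coe, Finset.mem_image] at hx hy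
    obtain ⟨v, hv, rfl⟩ := hx
    obtain ⟨w, hw, rfl⟩ := hy
    have hvw : v ≠ w := fun h => hxy (by rw [h])
    rw [Function.onFun, Set.disjoint_left]
    intro p hp1 hp2
    apply hS1 v hv w hw hvw
    show D (z v) (z w) ≤ _
    have h1 := Dynamics.mem_ball_dynEntourage.mp hp1
    have h2 := Dynamics.mem_ball_dynEntourage.mp hp2
    have h3 : ∀ i ∈ Finset.range (m * L), dist (f^[i] (z v)) (f^[i] (z w)) ≤ c / 20 := by
      intro i hi
      have e1 : dist (f^[i] (z v)) (f^[i] p) < c / 40 := h1 i (Finset.mem_range.mp hi)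
      have e2 : dist (f^[i] (z w)) (f^[i] p) < c / 40 := h2 i (Finset.mem_range.mp hi)
      have e3 := dist_triangle_right (f^[i] (z v)) (f^[i] (z w)) (f^[i] p)
      linarith
    refine le_trans (Finset.sum_le_sum h3) ?_
    rw [Finset.sum_const, Finset.card_range, nsmul_eq_mul]
    push_cast
    linarith
  have hcard := hnet.card_le_netMaxcard
  rw [Finset.card_image_of_injOn hinj] at hcard
  have h1 : EReal.exp ((a0 : EReal) * ((m * L : ℕ) : EReal)) ≤ ((S.card : ℕ) : ENNReal) := by
    have e1 : (a0 : EReal) * ((m * L : ℕ) : EReal) = ((a0 * (m * L) : ℝ) : EReal) := by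
      push_cast
      rfl
    rw [e1, EReal.exp_coe]
    have e2 : ((S.card : ℕ) : ENNReal) = ENNReal.ofReal (S.card : ℝ) := by simp
    rw [e2]
    apply ENNReal.ofReal_le_ofReal
    refine le_trans ?_ hScard
    rw [← Real.exp_log (show (0 : ℝ) < 2 ^ q by positivity), Real.log_pow]
    apply Real.exp_le_exp.mpr
    rw [ha0]
    have h7 : (m : ℝ) ≤ 12 * q := by exact_mod_cast (by omega : m ≤ 12 * q)
    have e3 : Real.log 2 / (12 * (L : ℝ)) * ((m : ℝ) * L) = Real.log 2 * (m / 12) := by
      field_simp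
    rw [e3]
    nlinarith
  refine le_trans h1 ?_
  exact_mod_cast ENat.toENNReal_mono hcard

end Pool.Agent.X125.Asp
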