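import Pool.Agent.X125.Asp.Defs
import Pool.Agent.X125.Asp.Ent

/-! Shadowing properties give the concatenation property. -/

set_option autoImplicit false
open Filter Topology Set MeasureTheory

namespace Pool.Agent.X125.Asp

variable {X : Type*} [MetricSpace X] [CompactSpace X]

theorem exists_bound (X : Type*) [MetricSpace X] [CompactSpace X] :
    ∃ D : ℝ, 0 < D ∧ ∀ x y : X, dist x y ≤ D := by
  refine ⟨Metric.diam (univ : Set X) + 1, by have := Metric.diam_nonneg (s := (univ : Set X)); linarith,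
    fun x y => ?_⟩
  have := Metric.dist_le_diam_of_mem (isCompact_univ (X := X)).isBounded (mem_univ x) (mem_univ y)
  linarith

theorem cont_sum {f : X → X} (hf : Continuous f) (w : ℕ → X) (n : ℕ) :
    Continuous fun z => ∑ i ∈ Finset.range n, dist (f^[i] z) (w i) := by
  apply continuous_finsetSum
  intro i _
  exact (hf.iterate i).dist continuous_const

/-- Baire category step. -/
theorem hp_of_cp {f : X → X} (hf : Continuous f) (L : ℕ) (hL : 0 < L) (a : Bool → X) (ε : ℝ)
    (h : ∀ ω : ℕ → Bool, ∃ z, ∃ N : ℕ, ∀ n ≥ N,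
      ∑ i ∈ Finset.range n, dist (f^[i] z) (wseq f L a ω i) ≤ ε * n) : HP f L a ε := by
  set F : ℕ → Set (ℕ → Bool) := fun N => {ω | ∃ z, ∀ n ≥ N,
      ∑ i ∈ Finset.range n, dist (f^[i] z) (wseq f L a ω i) ≤ ε * n} with hF
  have hclosed : ∀ N, IsClosed (F N) := by
    intro N
    have h1 : F N = Prod.fst '' {p : (ℕ → Bool) × X | ∀ n ≥ N,
      ∑ i ∈ Finset.range n, dist (f^[i] p.2) (wseq f L a p.1 i) ≤ ε * n} := by
      ext ω
      constructor
      · rintro ⟨z, hz⟩
        exact ⟨(ω, z), hz, rfl⟩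
      · rintro ⟨⟨ω', z⟩, hz, rfl⟩
        exact ⟨z, hz⟩
    rw [h1]
    apply isClosedMap_fst_of_compactSpace
    have h2 : {p : (ℕ → Bool) × X | ∀ n ≥ N,
      ∑ i ∈ Finset.range n, dist (f^[i] p.2) (wseq f L a p.1 i) ≤ ε * n} =
      ⋂ n ∈ {n : ℕ | n ≥ N}, {p : (ℕ → Bool) × X |
        ∑ i ∈ Finset.range n, dist (f^[i] p.2) (wseq f L a p.1 i) ≤ ε * n} := by
      ext p
      simp
    rw [h2]
    refine isClosed_biInter fun n _ => isClosed_le ?_ continuous_const
    apply continuous_finsetSum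
    intro i _
    refine ((hf.iterate i).comp continuous_snd).dist ?_
    unfold wseq
    have h3 : Continuous fun b : Bool => f^[i % L] (a b) := continuous_of_discreteTopology
    exact h3.comp ((continuous_apply (i / L)).comp continuous_fst)
  have hU : ⋃ N, F N = univ := by
    rw [eq_univ_iff_forall]
    intro ω
    obtain ⟨z, N, hz⟩ := h ω
    exact mem_iUnion.mpr ⟨N, z, hz⟩
  obtain ⟨N, u, hu⟩ := nonempty_interior_of_iUnion_of_closed hclosed hU
  have hmem : F N ∈ 𝓝 u := mem_interior_iff_mem_nhds.mp hu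
  rw [(PiNat.isTopologicalBasis_cylinders (fun _ => Bool)).mem_nhds_iff] at hmem
  obtain ⟨t, ⟨v, k, rfl⟩, hut, hsub⟩ := hmem
  refine ⟨v, k, N, fun m hm ω hω => ?_⟩
  obtain ⟨z, hz⟩ := hsub (show ω ∈ PiNat.cylinder v k from fun i hi => hω i hi)
  refine ⟨z, ?_⟩
  have := hz (m * L) (le_trans hm (Nat.le_mul_of_pos_right _ hL))
  push_cast at this
  exact this

/-- Number of multiples of `L` in an interval. -/
theorem count_dvd (L : ℕ) (k n : ℕ) :
    (∑ i ∈ Finset.range n, if L ∣ i + k + 1 then 1 else 0) + k / L = (n + k) / L := by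
  induction n with
  | zero => simp
  | succ n ih =>
    rw [Finset.sum_range_succ, add_right_comm, ih, show n + 1 + k = n + k + 1 by ring,
      Nat.succ_div]

theorem jump_sum {f : X → X} (L : ℕ) (hL : 0 < L) (a : Bool → X) (ω : ℕ → Bool) (D : ℝ) (hD0 : 0 < D)
    (hD : ∀ x y : X, dist x y ≤ D) (k n : ℕ) :
    ∑ i ∈ Finset.range n, dist (f (wseq f L a ω (i + k))) (wseq f L a ω (i + k + 1)) ≤
      D * (n / L + 1) := by
  have h1 : ∀ i ∈ Finset.range n, dist (f (wseq f L a ω (i + k))) (wseq f L a ω (i + k + 1)) ≤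
      D * ((if L ∣ i + k + 1 then 1 else 0 : ℕ) : ℝ) := by
    intro i _
    split_ifs with h
    · simpa using hD _ _
    · have e1 : (i + k + 1) / L = (i + k) / L := by
        rw [Nat.succ_div, if_neg h, add_zero]
      have e2 : (i + k + 1) % L = (i + k) % L + 1 := by
        have e3 := Nat.div_add_mod (i + k + 1) L
        have e4 := Nat.div_add_mod (i + k) L
        rw [e1] at e3
        omega
      unfold wseq
      rw [e1, e2, Function.iterate_succ_apply', dist_self]
      simp
  refine le_trans (Finset.sum_le_sum h1) ?_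
  rw [← Finset.mul_sum]
  gcongr
  rw [← Nat.cast_sum]
  have h2 := count_dvd L k n
  set s := ∑ i ∈ Finset.range n, if L ∣ i + k + 1 then 1 else 0 with hs
  have h3 : (n + k) / L ≤ n / L + k / L + 1 := by
    have e1 := Nat.div_add_mod n L
    have e2 := Nat.div_add_mod k L
    have e3 := Nat.mod_lt n hL
    have e4 := Nat.mod_lt k hL
    have e5 : (n + k) / L < n / L + k / L + 2 := by
      rw [Nat.div_lt_iff_lt_mul hL]
      nlinarith
    omega
  have h4 : s ≤ n / L + 1 := by omega
  have h5 : ((n / L : ℕ) : ℝ) ≤ (n : ℝ) / L := Nat.cast_div_le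
  calc (s : ℝ) ≤ ((n / L + 1 : ℕ) : ℝ) := by exact_mod_cast h4
    _ = ((n / L : ℕ) : ℝ) + 1 := by push_cast; rfl
    _ ≤ _ := by linarith

/-- The concatenation property. -/
def CP (f : X → X) : Prop :=
  ∀ ε > 0, ∃ L0 : ℕ, ∀ L ≥ L0, 0 < L → ∀ (a : Bool → X) (ω : ℕ → Bool), ∃ z, ∃ N : ℕ, ∀ n ≥ N,
      ∑ i ∈ Finset.range n, dist (f^[i] z) (wseq f L a ω i) ≤ ε * n

theorem cp_of_asp {f : X → X} (h : ASP f) : CP f := by
  intro ε hε
  obtain ⟨δ, hδ, h⟩ := h ε hε
  obtain ⟨D, hD0, hD⟩ := exists_bound X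
  obtain ⟨L0, hL0⟩ := exists_nat_gt (2 * D / δ)
  refine ⟨L0, fun L hL hLpos a ω => ?_⟩
  have hL' : (0 : ℝ) < L := by exact_mod_cast hLpos
  have hLD : 2 * D / δ < L := lt_of_lt_of_le hL0 (by exact_mod_cast hL)
  have hDL : D / L < δ / 2 := by
    rw [div_lt_iff₀ hL']
    rw [div_lt_iff₀ hδ] at hLD
    linarith
  have hps : IsAvgPseudoOrbit f δ (wseq f L a ω) := by
    obtain ⟨N, hN⟩ := exists_nat_gt (2 * D / δ)
    refine ⟨N + 1, fun n hn k => ?_⟩
    have hn' : (0 : ℝ) < n := by exact_mod_cast (by omega : 0 < n)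
    have hnD : 2 * D / δ < n := lt_of_lt_of_le hN (by exact_mod_cast (by omega : N ≤ n))
    have hDn : D / n < δ / 2 := by
      rw [div_lt_iff₀ hn']
      rw [div_lt_iff₀ hδ] at hnD
      linarith
    have h1 := jump_sum (f := f) L hLpos a ω D hD0 hD k n
    calc (1 / (n : ℝ)) * ∑ i ∈ Finset.range n,
          dist (f (wseq f L a ω (i + k))) (wseq f L a ω (i + k + 1))
        ≤ (1 / (n : ℝ)) * (D * (n / L + 1)) := by gcongr
      _ = D / L + D / n := by field_simp
      _ < δ := by linarith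
  obtain ⟨y, hy⟩ := h _ hps
  refine ⟨y, ?_⟩
  have h2 : ∀ᶠ n : ℕ in atTop, (1 / (n : ℝ)) *
      ∑ i ∈ Finset.range n, dist (f^[i] y) (wseq f L a ω i) < ε := by
    refine eventually_lt_of_limsup_lt hy ?_
    refine ⟨D, Filter.eventually_map.mpr (Filter.eventually_atTop.mpr ⟨1, fun n hn => ?_⟩)⟩
    have hn' : (0 : ℝ) < n := by exact_mod_cast (by omega : 0 < n)
    calc (1 / (n : ℝ)) * ∑ i ∈ Finset.range n, dist (f^[i] y) (wseq f L a ω i)
        ≤ (1 / (n : ℝ)) * ∑ i ∈ Finset.range n, D := by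
          gcongr with i _
          exact hD _ _
      _ = D := by rw [Finset.sum_const, Finset.card_range, nsmul_eq_mul]; field_simp
  obtain ⟨N, hN⟩ := Filter.eventually_atTop.mp h2
  refine ⟨N + 1, fun n hn => ?_⟩
  have h3 := (hN n (by omega)).le
  have hn' : (0 : ℝ) < n := by exact_mod_cast (by omega : 0 < n)
  rw [one_div, inv_mul_le_iff₀ hn'] at h3
  linarith

/-- The glueing argument for asymptotic average shadowing: a family of worse and worse
counterexamples can be glued to one asymptotic pseudo-orbit. -/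
theorem glue {f : X → X} (hf : Continuous f) (h : AASP f) (ε D : ℝ) (hε : 0 < ε) (hD0 : 0 < D)
    (hD : ∀ x y : X, dist x y ≤ D) (w : ℕ → ℕ → X)
    (hw : ∀ K n : ℕ, ∑ i ∈ Finset.range n, dist (f (w K i)) (w K (i + 1)) ≤ D * (n / (K + 1) + 1))
    (hbad : ∀ (K : ℕ) (z : X) (N : ℕ), ∃ n ≥ N,
      ε * n < ∑ i ∈ Finset.range n, dist (f^[i] z) (w K i)) : False := by
  -- compactness
  have hcomp : ∀ K N : ℕ, ∃ M, N ≤ M ∧ ∀ z : X, ∃ n, N ≤ n ∧ n < M ∧
      ε * n < ∑ i ∈ Finset.range n, dist (f^[i] z) (w K i) := by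
    intro K N
    obtain ⟨t, ht⟩ := (isCompact_univ (X := X)).elim_finite_subcover
      (fun n : ℕ => {z : X | N ≤ n ∧ ε * n < ∑ i ∈ Finset.range n, dist (f^[i] z) (w K i)})
      (by
        intro n
        by_cases hn : N ≤ n
        · simp only [hn, true_and]
          exact isOpen_lt continuous_const (cont_sum hf (w K) n)
        · simp only [hn, false_and]
          exact isOpen_const)
      (by
        intro z _
        obtain ⟨n, hn, h1⟩ := hbad K z N
        exact mem_iUnion.mpr ⟨n, hn, h1⟩)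
    refine ⟨max N (t.sup id + 1), le_max_left _ _, fun z => ?_⟩
    have hz := ht (mem_univ z)
    simp only [mem_iUnion] at hz
    obtain ⟨n, hn, h1, h2⟩ := hz
    have : n ≤ t.sup id := Finset.le_sup (f := id) hn
    exact ⟨n, h1, by omega, h2⟩
  choose M hM1 hM2 using hcomp
  set t : ℕ → ℕ := fun K => Nat.rec 0 (fun K tK => tK + M K (tK + K + 1)) K with ht
  have ht0 : t 0 = 0 := rfl
  have hts : ∀ K, t (K + 1) = t K + M K (t K + K + 1) := fun K => rfl
  have hgap : ∀ K, t K + (t K + K + 1) ≤ t (K + 1) := by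
    intro K
    rw [hts]
    have := hM1 K (t K + K + 1)
    omega
  have hmono : StrictMono t := strictMono_nat_of_lt_succ fun K => by have := hgap K; omega
  have hle : ∀ K, K ≤ t K := fun K => hmono.le_apply
  -- the index of the piece
  set kk : ℕ → ℕ := fun i => Nat.findGreatest (fun K => t K ≤ i) i with hkk
  have hk1 : ∀ i, t (kk i) ≤ i := fun i =>
    Nat.findGreatest_spec (P := fun K => t K ≤ i) (Nat.zero_le i) (by rw [ht0]; omega)
  have hkeq : ∀ K r, r < M K (t K + K + 1) → kk (t K + r) = K := by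
    intro K r hr
    have h1 := hk1 (t K + r)
    have h2 : K ≤ kk (t K + r) :=
      Nat.le_findGreatest (P := fun K' => t K' ≤ t K + r) (by have := hle K; omega) (by omega)
    by_contra hne
    have h3 : K + 1 ≤ kk (t K + r) := by omega
    have h4 := hmono.monotone h3
    rw [hts] at h4
    omega
  set x : ℕ → X := fun i => w (kk i) (i - t (kk i)) with hx
  have hxe : ∀ K r, r < M K (t K + K + 1) → x (t K + r) = w K r := by
    intro K r hr
    simp only [hx, hkeq K r hr]
    congr 1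
    omega
  set e : ℕ → ℝ := fun i => dist (f (x i)) (x (i + 1)) with he
  have he0 : ∀ i, 0 ≤ e i := fun i => dist_nonneg
  -- sum inside a piece
  have hin : ∀ K r, r < M K (t K + K + 1) →
      ∑ i ∈ Finset.range r, e (t K + i) ≤ D * (r / (K + 1) + 1) := by
    intro K r hr
    refine le_trans (le_of_eq ?_) (hw K r)
    apply Finset.sum_congr rfl
    intro i hi
    have hi' := Finset.mem_range.mp hi
    simp only [he]
    rw [hxe K i (by omega), show t K + i + 1 = t K + (i + 1) by ring, hxe K (i + 1) (by omega)]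
  have hfull : ∀ K, ∑ i ∈ Finset.range (M K (t K + K + 1)), e (t K + i) ≤
      3 * D * (M K (t K + K + 1) : ℝ) / (K + 1) := by
    intro K
    have hMpos : 0 < M K (t K + K + 1) := lt_of_lt_of_le (by omega) (hM1 K (t K + K + 1))
    obtain ⟨r, hr⟩ : ∃ r, M K (t K + K + 1) = r + 1 := ⟨M K (t K + K + 1) - 1, by omega⟩
    have h1 := hin K r (by omega)
    rw [hr, Finset.sum_range_succ]
    have h2 : e (t K + r) ≤ D := hD _ _
    have h3 : ((K : ℝ) + 1) ≤ ((r + 1 : ℕ) : ℝ) := by
      have := hM1 K (t K + K + 1)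
      exact_mod_cast (by omega : K + 1 ≤ r + 1)
    have hK : (0 : ℝ) < (K : ℝ) + 1 := by positivity
    have h4 : D * 2 ≤ 2 * D * ((r + 1 : ℕ) : ℝ) / (K + 1) := by
      rw [le_div_iff₀ hK]
      nlinarith
    have h5 : D * ((r : ℝ) / (K + 1)) ≤ D * ((r + 1 : ℕ) : ℝ) / (K + 1) := by
      rw [mul_div_assoc]
      gcongr
      omega
    have h6 : 3 * D * ((r + 1 : ℕ) : ℝ) / (K + 1) = D * ((r + 1 : ℕ) : ℝ) / (K + 1) +
        2 * D * ((r + 1 : ℕ) : ℝ) / (K + 1) := by ring
    rw [h6]
    linarith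
  -- sums up to t K
  have hsumt : ∀ K0 j : ℕ, ∑ i ∈ Finset.range (t (K0 + j)), e i ≤
      ∑ i ∈ Finset.range (t K0), e i + 3 * D * ((t (K0 + j) : ℝ) - t K0) / (K0 + 1) := by
    intro K0 j
    induction j with
    | zero => simp
    | succ j ih =>
      rw [← add_assoc, hts, Finset.sum_range_add]
      have h1 := hfull (K0 + j)
      have h2 : 3 * D * (M (K0 + j) (t (K0 + j) + (K0 + j) + 1) : ℝ) / ((K0 + j : ℕ) + 1) ≤
          3 * D * (M (K0 + j) (t (K0 + j) + (K0 + j) + 1) : ℝ) / (K0 + 1) := by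
        gcongr
        omega
      have h3 := le_trans h1 h2
      have h4 : 3 * D * (((t (K0 + j) + M (K0 + j) (t (K0 + j) + (K0 + j) + 1) : ℕ) : ℝ) - t K0) /
          (K0 + 1) = 3 * D * ((t (K0 + j) : ℝ) - t K0) / (K0 + 1) +
          3 * D * (M (K0 + j) (t (K0 + j) + (K0 + j) + 1) : ℝ) / (K0 + 1) := by
        push_cast
        ring
      rw [h4]
      linarith
  have hsum : ∀ K0 n : ℕ, t K0 ≤ n → ∑ i ∈ Finset.range n, e i ≤
      ∑ i ∈ Finset.range (t K0), e i + 3 * D * n / (K0 + 1) + D := by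
    intro K0 n hn
    have hKle : K0 ≤ kk n := Nat.le_findGreatest (P := fun K' => t K' ≤ n)
      (le_trans (hle K0) hn) hn
    obtain ⟨j, hj⟩ := Nat.exists_eq_add_of_le hKle
    have h1 := hk1 n
    have h2 : n < t (kk n + 1) := by
      by_contra hcon
      have : kk n + 1 ≤ kk n := Nat.le_findGreatest (P := fun K' => t K' ≤ n)
        (le_trans (hle _) (by omega)) (by omega)
      omega
    rw [hj] at h1 h2
    obtain ⟨r, hr⟩ := Nat.exists_eq_add_of_le h1
    rw [hts] at h2
    have h3 := hsumt K0 j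
    have h4 := hin (K0 + j) r (by omega)
    rw [hr, Finset.sum_range_add]
    have hK : (0 : ℝ) < (K0 : ℝ) + 1 := by positivity
    have h5 : D * ((r : ℝ) / ((K0 + j : ℕ) + 1) + 1) ≤ 3 * D * r / (K0 + 1) + D := by
      have e1 : (r : ℝ) / ((K0 + j : ℕ) + 1) ≤ r / (K0 + 1) := by
        gcongr
        omega
      have e2 : 3 * D * (r : ℝ) / (K0 + 1) = 3 * (D * (r / (K0 + 1))) := by ring
      have e3 : 0 ≤ D * ((r : ℝ) / (K0 + 1)) := by positivity
      have e4 : D * ((r : ℝ) / ((K0 + j : ℕ) + 1)) ≤ D * (r / (K0 + 1)) := by gcongr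
      rw [e2, mul_add]
      linarith
    have h6 : 3 * D * ((t (K0 + j) : ℝ) - t K0) / (K0 + 1) ≤ 3 * D * (t (K0 + j) : ℝ) / (K0 + 1) := by
      gcongr
      have : (0 : ℝ) ≤ t K0 := by positivity
      linarith
    have h7 : 3 * D * ((t (K0 + j) + r : ℕ) : ℝ) / (K0 + 1) =
        3 * D * (t (K0 + j) : ℝ) / (K0 + 1) + 3 * D * r / (K0 + 1) := by
      push_cast
      ring
    rw [h7]
    linarith
  have hps : Tendsto (fun n : ℕ => (1 / (n : ℝ)) *
      ∑ i ∈ Finset.range n, dist (f (x i)) (x (i + 1))) atTop (𝓝 0) := by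
    rw [Metric.tendsto_atTop]
    intro η hη
    obtain ⟨K0, hK0⟩ := exists_nat_gt (6 * D / η)
    have hK1 : 3 * D / ((K0 : ℝ) + 1) < η / 2 := by
      rw [div_lt_iff₀ (by positivity)]
      rw [div_lt_iff₀ hη] at hK0
      nlinarith
    set C := ∑ i ∈ Finset.range (t K0), e i + D with hC
    have hC0 : 0 < C := by
      have : 0 ≤ ∑ i ∈ Finset.range (t K0), e i := Finset.sum_nonneg fun i _ => he0 i
      linarith
    obtain ⟨N, hN⟩ := exists_nat_gt (2 * C / η)
    refine ⟨max (t K0) N + 1, fun n hn => ?_⟩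
    have hn' : (0 : ℝ) < n := by exact_mod_cast (by omega : 0 < n)
    have h1 := hsum K0 n (by omega)
    have h2 : C / n < η / 2 := by
      rw [div_lt_iff₀ hn']
      rw [div_lt_iff₀ hη] at hN
      have : (N : ℝ) ≤ n := by exact_mod_cast (by omega : N ≤ n)
      nlinarith
    rw [Real.dist_eq, sub_zero, abs_of_nonneg (by
      have : 0 ≤ ∑ i ∈ Finset.range n, dist (f (x i)) (x (i + 1)) :=
        Finset.sum_nonneg fun i _ => dist_nonneg
      positivity)]
    calc (1 / (n : ℝ)) * ∑ i ∈ Finset.range n, dist (f (x i)) (x (i + 1))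
        ≤ (1 / (n : ℝ)) * (C + 3 * D * n / (K0 + 1)) := by
          gcongr
          rw [hC]
          linarith
      _ = C / n + 3 * D / (K0 + 1) := by field_simp
      _ < η := by linarith
  obtain ⟨y, hy⟩ := h x hps
  rw [Metric.tendsto_atTop] at hy
  obtain ⟨N, hN⟩ := hy (ε / 4) (by positivity)
  obtain ⟨n, hn1, hn2, hn3⟩ := hM2 N (t N + N + 1) (f^[t N] y)
  have h1 := hN (t N + n) (by omega)
  have hn' : (0 : ℝ) < n := by exact_mod_cast (by omega : 0 < n)
  rw [Real.dist_eq, sub_zero] at h1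
  have h2 := le_of_lt (lt_of_le_of_lt (le_abs_self _) h1)
  have hpos : (0 : ℝ) < ((t N + n : ℕ) : ℝ) := by exact_mod_cast (by omega : 0 < t N + n)
  rw [one_div, inv_mul_le_iff₀ hpos, Finset.sum_range_add] at h2
  have h3 : 0 ≤ ∑ i ∈ Finset.range (t N), dist (f^[i] y) (x i) :=
    Finset.sum_nonneg fun i _ => dist_nonneg
  have h4 : ∑ i ∈ Finset.range n, dist (f^[i] (f^[t N] y)) (w N i) =
      ∑ i ∈ Finset.range n, dist (f^[t N + i] y) (x (t N + i)) := by
    apply Finset.sum_congr rfl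
    intro i hi
    have hi' := Finset.mem_range.mp hi
    rw [hxe N i (by omega), ← Function.iterate_add_apply, add_comm i]
  rw [h4] at hn3
  have h5 : ((t N + n : ℕ) : ℝ) ≤ 2 * n := by exact_mod_cast (by omega : t N + n ≤ 2 * n)
  nlinarith

theorem cp_of_aasp {f : X → X} (hf : Continuous f) (h : AASP f) : CP f := by
  intro ε hε
  obtain ⟨D, hD0, hD⟩ := exists_bound X
  by_contra hcon
  push Not at hcon
  choose L hL1 hL2 a ω hbad using hcon
  refine glue hf h ε D hε hD0 hD (fun K => wseq f (L (K + 1)) (a (K + 1)) (ω (K + 1))) ?_ ?_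
  · intro K n
    have h1 := jump_sum (f := f) (L (K + 1)) (hL2 (K + 1)) (a (K + 1)) (ω (K + 1)) D hD0 hD 0 n
    simp only [add_zero] at h1
    refine le_trans h1 ?_
    gcongr
    exact_mod_cast hL1 (K + 1)
  · intro K z N
    exact hbad (K + 1) z N

/-- Almost specification gives the property `HP`. -/
theorem hp_of_almostSpec {f : X → X} (h : AlmostSpec f) : ∀ ε > 0, ∃ L0 : ℕ, ∀ L ≥ L0, 0 < L →
    ∀ a : Bool → X, HP f L a ε := by
  intro ε hε
  obtain ⟨D, hD0, hD⟩ := exists_bound X
  obtain ⟨ε₀, g, kg, ⟨hε₀, hg⟩, hk, hspec⟩ := h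
  set ε₁ := min (ε / 2) ε₀ with hε₁
  have hε₁0 : 0 < ε₁ := lt_min (by positivity) hε₀
  have hε₁1 : min ε₁ ε₀ = ε₁ := min_eq_left (min_le_right _ _)
  have ht := (hg ε₁ hε₁0 (min_le_right _ _)).2
  have ht2 : ∀ᶠ n : ℕ in atTop, (g n ε₁ : ℝ) / n < ε / (2 * D) :=
    ht.eventually_lt_const (by positivity)
  obtain ⟨N, hN⟩ := Filter.eventually_atTop.mp ht2
  refine ⟨max N (kg ε₁), fun L hL hLpos a => ?_⟩
  have hL' : (0 : ℝ) < L := by exact_mod_cast hLpos
  refine ⟨fun _ => false, 0, 0, fun m _ ω _ => ?_⟩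
  rcases Nat.eq_zero_or_pos m with rfl | hm
  · exact ⟨a true, by simp⟩
  obtain ⟨z, hz⟩ := hspec m (fun _ => ε₁) (fun j => a (ω j)) (fun _ => L) hm
    (fun _ _ => hε₁0) (fun _ _ => le_trans (le_max_right _ _) hL)
  refine ⟨z, ?_⟩
  rw [sum_blocks]
  have hblock : ∀ j ∈ Finset.range m, ∑ r ∈ Finset.range L,
      dist (f^[j * L + r] z) (wseq f L a ω (j * L + r)) ≤ ε * L := by
    intro j hj
    obtain ⟨Λ, hΛ1, hΛ2, hΛ3⟩ := hz j (Finset.mem_range.mp hj)
    rw [hε₁1] at hΛ2
    simp only [Finset.sum_const, Finset.card_range, smul_eq_mul] at hΛ3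
    have h1 : ∀ r ∈ Finset.range L, dist (f^[j * L + r] z) (wseq f L a ω (j * L + r)) ≤
        (if r ∈ Λ then ε / 2 else D) := by
      intro r hr
      rw [wseq_block _ _ _ _ _ _ (Finset.mem_range.mp hr)]
      split_ifs with hrΛ
      · have h2 := hΛ3 r hrΛ
        rw [← Function.iterate_add_apply, dist_comm, add_comm r] at h2
        exact le_trans h2.le (min_le_left _ _)
      · exact hD _ _
    refine le_trans (Finset.sum_le_sum h1) ?_
    rw [← Finset.sum_filter_add_sum_filter_not (Finset.range L) (fun r => r ∈ Λ)]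
    have e1 : ∑ r ∈ (Finset.range L).filter (fun r => r ∈ Λ), (if r ∈ Λ then ε / 2 else D) ≤
        ε / 2 * L := by
      rw [Finset.sum_congr rfl (fun r hr => if_pos (Finset.mem_filter.mp hr).2), Finset.sum_const,
        nsmul_eq_mul, mul_comm]
      have : ((Finset.range L).filter (fun r => r ∈ Λ)).card ≤ L := by
        refine le_trans (Finset.card_filter_le _ _) ?_
        rw [Finset.card_range]
      have h2 : ((((Finset.range L).filter (fun r => r ∈ Λ)).card : ℕ) : ℝ) ≤ L := by
        exact_mod_cast this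
      gcongr
    have e2 : ∑ r ∈ (Finset.range L).filter (fun r => ¬ r ∈ Λ), (if r ∈ Λ then ε / 2 else D) ≤
        ε / 2 * L := by
      rw [Finset.sum_congr rfl (fun r hr => if_neg (Finset.mem_filter.mp hr).2), Finset.sum_const,
        nsmul_eq_mul]
      have h3 : ((Finset.range L).filter (fun r => ¬ r ∈ Λ)).card + Λ.card = L := by
        have h4 : (Finset.range L).filter (fun r => ¬ r ∈ Λ) = Finset.range L \ Λ := by
          ext r; simp
        rw [h4, Finset.card_sdiff_of_subset hΛ1, Finset.card_range]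
        have := Finset.card_le_card hΛ1
        rw [Finset.card_range] at this
        omega
      have h5 : ((Finset.range L).filter (fun r => ¬ r ∈ Λ)).card ≤ g L ε₁ := by omega
      have h6 := (hN L (le_trans (le_max_left _ _) hL)).le
      rw [div_le_iff₀ hL'] at h6
      have h7 : ((((Finset.range L).filter (fun r => ¬ r ∈ Λ)).card : ℕ) : ℝ) ≤ g L ε₁ := by
        exact_mod_cast h5
      calc _ ≤ (g L ε₁ : ℝ) * D := by gcongr
        _ ≤ (ε / (2 * D) * L) * D := by gcongr
        _ = ε / 2 * L := by field_simp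
    linarith
  refine le_trans (Finset.sum_le_sum hblock) ?_
  rw [Finset.sum_const, Finset.card_range, nsmul_eq_mul]
  linarith

/-- Separation of two orbits on average along infinitely many times. -/
theorem exists_separated [MeasurableSpace X] [BorelSpace X] [Nontrivial X] {f : X → X}
    (hf : Continuous f) (hc : measureCenter f = univ) :
    ∃ (x y : X) (c : ℝ), 0 < c ∧ ∀ N : ℕ, ∃ n ≥ N,
      c * n ≤ ∑ i ∈ Finset.range n, dist (f^[i] x) (f^[i] y) := by
  obtain ⟨D, hD0, hD⟩ := exists_bound X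
  by_contra hcon
  push Not at hcon
  obtain ⟨p, q, hpq⟩ := exists_pair_ne X
  have hd : 0 < dist p q := dist_pos.mpr hpq
  set r := dist p q / 3 with hr
  have hr0 : 0 < r := by positivity
  have hmeas : ∀ p : X, ∃ μ : Measure X, IsProbabilityMeasure μ ∧ MeasurePreserving f μ μ ∧
      μ (Metric.ball p r) ≠ 0 := by
    intro p
    by_contra h
    push Not at h
    have h1 : p ∈ measureCenter f := by rw [hc]; exact mem_univ p
    apply h1
    exact ⟨Metric.ball p r, ⟨Metric.isOpen_ball, h⟩, Metric.mem_ball_self hr0⟩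
  obtain ⟨μ, hμ1, hμ2, hμ3⟩ := hmeas p
  obtain ⟨ν, hν1, hν2, hν3⟩ := hmeas q
  have hG : MeasurePreserving (Prod.map f f) (μ.prod ν) (μ.prod ν) := hμ2.prod hν2
  have hGi : ∀ i : ℕ, ∫ z, dist (f^[i] z.1) (f^[i] z.2) ∂(μ.prod ν) =
      ∫ z : X × X, dist z.1 z.2 ∂(μ.prod ν) := by
    intro i
    have h1 := (hG.iterate i)
    have h2 : ∫ z : X × X, dist z.1 z.2 ∂(μ.prod ν) =
        ∫ z, (fun w : X × X => dist w.1 w.2) ((Prod.map f f)^[i] z) ∂(μ.prod ν) := by
      conv_lhs => rw [← h1.map_eq]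
      rw [integral_map h1.measurable.aemeasurable]
      exact (continuous_fst.dist continuous_snd).aestronglyMeasurable
    rw [h2]
    congr 1
    funext z
    rw [Prod.map_iterate]
    rfl
  have hint : ∀ i : ℕ, Integrable (fun z : X × X => dist (f^[i] z.1) (f^[i] z.2)) (μ.prod ν) := by
    intro i
    refine Integrable.of_bound (C := D) ?_ ?_
    · exact (((hf.iterate i).comp continuous_fst).dist
        ((hf.iterate i).comp continuous_snd)).aestronglyMeasurable
    · exact Filter.Eventually.of_forall fun z => by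
        rw [Real.norm_of_nonneg dist_nonneg]
        exact hD _ _
  set I := ∫ z : X × X, dist z.1 z.2 ∂(μ.prod ν) with hI
  have hav : ∀ n : ℕ, 1 ≤ n → ∫ z : X × X, (1 / (n : ℝ)) *
      ∑ i ∈ Finset.range n, dist (f^[i] z.1) (f^[i] z.2) ∂(μ.prod ν) = I := by
    intro n hn
    rw [integral_const_mul, integral_finsetSum _ (fun i _ => hint i),
      Finset.sum_congr rfl fun i _ => hGi i, Finset.sum_const, Finset.card_range, nsmul_eq_mul]
    have hn' : (0 : ℝ) < n := by exact_mod_cast (by omega : 0 < n)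
    field_simp
  have hlim : Tendsto (fun n : ℕ => ∫ z : X × X, (1 / (n : ℝ)) *
      ∑ i ∈ Finset.range n, dist (f^[i] z.1) (f^[i] z.2) ∂(μ.prod ν)) atTop
      (𝓝 (∫ _ : X × X, (0 : ℝ) ∂(μ.prod ν))) := by
    apply tendsto_integral_of_dominated_convergence (fun _ => D)
    · intro n
      apply Continuous.aestronglyMeasurable
      refine continuous_const.mul (continuous_finsetSum _ fun i _ => ?_)
      exact ((hf.iterate i).comp continuous_fst).dist ((hf.iterate i).comp continuous_snd)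
    · exact integrable_const _
    · intro n
      refine Filter.Eventually.of_forall fun z => ?_
      rw [Real.norm_of_nonneg (by
        have : 0 ≤ ∑ i ∈ Finset.range n, dist (f^[i] z.1) (f^[i] z.2) :=
          Finset.sum_nonneg fun i _ => dist_nonneg
        positivity)]
      rcases Nat.eq_zero_or_pos n with rfl | hn
      · simpa using hD0.le
      have hn' : (0 : ℝ) < n := by exact_mod_cast hn
      calc (1 / (n : ℝ)) * ∑ i ∈ Finset.range n, dist (f^[i] z.1) (f^[i] z.2)
          ≤ (1 / (n : ℝ)) * ∑ i ∈ Finset.range n, D := by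
            gcongr with i _
            exact hD _ _
        _ = D := by rw [Finset.sum_const, Finset.card_range, nsmul_eq_mul]; field_simp
    · refine Filter.Eventually.of_forall fun z => ?_
      rw [Metric.tendsto_atTop]
      intro η hη
      obtain ⟨N, hN⟩ := hcon z.1 z.2 η hη
      refine ⟨N + 1, fun n hn => ?_⟩
      have h1 := hN n (by omega)
      have hn' : (0 : ℝ) < n := by exact_mod_cast (by omega : 0 < n)
      rw [Real.dist_eq, sub_zero, abs_of_nonneg (by
        have : 0 ≤ ∑ i ∈ Finset.range n, dist (f^[i] z.1) (f^[i] z.2) :=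
          Finset.sum_nonneg fun i _ => dist_nonneg
        positivity), one_div, inv_mul_lt_iff₀ hn']
      linarith
  have hI0 : I = 0 := by
    have h1 : Tendsto (fun _ : ℕ => I) atTop (𝓝 I) := tendsto_const_nhds
    have h2 : Tendsto (fun _ : ℕ => I) atTop (𝓝 0) := by
      rw [integral_zero] at hlim
      refine hlim.congr' ?_
      filter_upwards [Filter.eventually_ge_atTop 1] with n hn using hav n hn
    exact tendsto_nhds_unique h1 h2
  -- lower bound
  have hlow : ∀ z ∈ (Metric.ball p r) ×ˢ (Metric.ball q r), r ≤ dist z.1 z.2 := by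
    rintro ⟨x, y⟩ ⟨hx, hy⟩
    have h1 := Metric.mem_ball.mp hx
    have h2 := Metric.mem_ball.mp hy
    have h3 := dist_triangle4 p x y q
    rw [dist_comm p x] at h3
    simp only
    have : dist p q = 3 * r := by rw [hr]; ring
    linarith
  have hz := (integral_eq_zero_iff_of_nonneg (fun z => dist_nonneg) (by
    have := hint 0
    simpa using this)).mp hI0
  have h0 : (μ.prod ν) ((Metric.ball p r) ×ˢ (Metric.ball q r)) = 0 := by
    refine measure_mono_null ?_ (ae_iff.mp hz)
    intro z hzz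
    have := hlow z hzz
    simp only [Pi.zero_apply, mem_ofPred_eq]
    intro h
    rw [h] at this
    linarith
  rw [Measure.prod_prod] at h0
  rcases mul_eq_zero.mp h0 with h | h
  · exact hμ3 h
  · exact hν3 h

end Pool.Agent.X125.Asp
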